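import Pool.Agent.Helper44.GJ.Stmts

/-!
GJ, module CO: continuity, positivity and compact superlevel sets of `Mp` on `V + KB B`.
-/

open Finset MeasureTheory Filter Topology Matrix
open scoped ENNReal ContDiff

namespace Pool.Agent.Helper44.GJ

open Pool.Agent.Helper44.GF Pool.Agent.Helper44.GN Pool.Agent.Helper44.GH

namespace CO

theorem inj_of {n m : ℕ} {B : Matrix (Fin m) (Fin n) ℝ} {W : Matrix (Fin n) (Fin m) ℝ}
    (h : B * W = 1) : Function.Injective W.mulVec := by
  intro x y hxy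
  have h1 : B.mulVec (W.mulVec x) = B.mulVec (W.mulVec y) := by rw [hxy]
  rw [Matrix.mulVec_mulVec, Matrix.mulVec_mulVec, h, Matrix.one_mulVec, Matrix.one_mulVec] at h1
  exact h1

/-- A bound for the entries of `B y`. -/
noncomputable def cB {n m : ℕ} (B : Matrix (Fin m) (Fin n) ℝ) : ℝ := 1 + ∑ a, ∑ i, |B a i|

theorem cB_one {n m : ℕ} (B : Matrix (Fin m) (Fin n) ℝ) : 1 ≤ cB B := by
  unfold cB
  have : 0 ≤ ∑ a, ∑ i, |B a i| :=
    Finset.sum_nonneg fun a _ => Finset.sum_nonneg fun i _ => abs_nonneg _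
  linarith

theorem cB_bound {n m : ℕ} (B : Matrix (Fin m) (Fin n) ℝ) (y : Fin n → ℝ) (a : Fin m) :
    |B.mulVec y a| ≤ cB B * ‖y‖ := by
  have h1 : |B.mulVec y a| ≤ ∑ i, |B a i| * ‖y‖ := by
    unfold Matrix.mulVec dotProduct
    refine (Finset.abs_sum_le_sum_abs _ _).trans (Finset.sum_le_sum ?_)
    intro i _
    rw [abs_mul]
    have h2 : |y i| ≤ ‖y‖ := by
      rw [← Real.norm_eq_abs]
      exact norm_le_pi_norm y i
    exact mul_le_mul_of_nonneg_left h2 (abs_nonneg _)
  have h3 : ∑ i, |B a i| ≤ ∑ a, ∑ i, |B a i| :=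
    Finset.single_le_sum (f := fun a => ∑ i, |B a i|)
      (fun a _ => Finset.sum_nonneg fun i _ => abs_nonneg _) (Finset.mem_univ a)
  rw [← Finset.sum_mul] at h1
  refine h1.trans (mul_le_mul_of_nonneg_right ?_ (norm_nonneg _))
  unfold cB
  linarith

/-- The comparison matrix. -/
noncomputable def DD {n m : ℕ} (B : Matrix (Fin m) (Fin n) ℝ) : Matrix (Fin m) (Fin m) ℝ :=
  Matrix.diagonal fun _ => ((m : ℝ) + 1)⁻¹ * (cB B)⁻¹

theorem DD_pos {n m : ℕ} (B : Matrix (Fin m) (Fin n) ℝ) :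
    0 < ((m : ℝ) + 1)⁻¹ * (cB B)⁻¹ := by
  have h1 := cB_one B
  have h2 : (0 : ℝ) < (m : ℝ) + 1 := by positivity
  have h3 : 0 < cB B := by linarith
  positivity

theorem DD_mulVec {n m : ℕ} (B : Matrix (Fin m) (Fin n) ℝ) (x : Fin m → ℝ) (a : Fin m) :
    (DD B).mulVec x a = ((m : ℝ) + 1)⁻¹ * (cB B)⁻¹ * x a := by
  unfold DD
  rw [Matrix.mulVec_diagonal]

theorem DD_inj {n m : ℕ} (B : Matrix (Fin m) (Fin n) ℝ) :
    Function.Injective (DD B).mulVec := by
  intro x y h
  funext a
  have h1 := congrFun h a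
  rw [DD_mulVec, DD_mulVec] at h1
  exact mul_left_cancel₀ (DD_pos B).ne' h1

theorem norm_pow_le_Ph {n m : ℕ} (W : Matrix (Fin n) (Fin m) ℝ) (p : ℝ) (hp : 0 < p)
    (x : Fin m → ℝ) : ‖W.mulVec x‖ ^ p ≤ Ph p W x := by
  rcases Nat.eq_zero_or_pos n with hn | hn
  · subst hn
    have h0 : ‖W.mulVec x‖ = 0 := by
      have : W.mulVec x = 0 := Subsingleton.elim _ _
      rw [this, norm_zero]
    rw [h0, Real.zero_rpow hp.ne']
    exact Finset.sum_nonneg fun i _ => Real.rpow_nonneg (abs_nonneg _) _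
  · have : Nonempty (Fin n) := ⟨⟨0, hn⟩⟩
    obtain ⟨i, hi⟩ := Finite.exists_max fun i => |W.mulVec x i|
    have h1 : ‖W.mulVec x‖ ≤ |W.mulVec x i| := by
      rw [pi_norm_le_iff_of_nonneg (abs_nonneg _)]
      intro j
      rw [Real.norm_eq_abs]
      exact hi j
    have h2 : ‖W.mulVec x‖ ^ p ≤ |W.mulVec x i| ^ p :=
      Real.rpow_le_rpow (norm_nonneg _) h1 hp.le
    refine h2.trans ?_
    unfold Ph
    exact Finset.single_le_sum (f := fun i => |W.mulVec x i| ^ p)
      (fun i _ => Real.rpow_nonneg (abs_nonneg _) _) (Finset.mem_univ i)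

theorem Ph_DD_le {n m : ℕ} (B : Matrix (Fin m) (Fin n) ℝ) (W : Matrix (Fin n) (Fin m) ℝ)
    (h : B * W = 1) (p : ℝ) (hp : 1 ≤ p) (x : Fin m → ℝ) : Ph p (DD B) x ≤ Ph p W x := by
  have hc := cB_one B
  have hc0 : 0 < cB B := by linarith
  have hm0 : (0 : ℝ) < (m : ℝ) + 1 := by positivity
  refine le_trans ?_ (norm_pow_le_Ph W p (by linarith) x)
  have hx : ∀ a, |(DD B).mulVec x a| ≤ ((m : ℝ) + 1)⁻¹ * ‖W.mulVec x‖ := by
    intro a
    rw [DD_mulVec, abs_mul, abs_of_pos (DD_pos B), mul_assoc]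
    refine mul_le_mul_of_nonneg_left ?_ (by positivity)
    have h1 : B.mulVec (W.mulVec x) = x := by
      rw [Matrix.mulVec_mulVec, h, Matrix.one_mulVec]
    have h2 := cB_bound B (W.mulVec x) a
    rw [h1] at h2
    rw [inv_mul_le_iff₀ hc0]
    exact h2
  unfold Ph
  have h3 : ∀ a ∈ (Finset.univ : Finset (Fin m)), |(DD B).mulVec x a| ^ p ≤
      ((m : ℝ) + 1)⁻¹ * ‖W.mulVec x‖ ^ p := by
    intro a _
    have h4 : |(DD B).mulVec x a| ^ p ≤ (((m : ℝ) + 1)⁻¹ * ‖W.mulVec x‖) ^ p :=
      Real.rpow_le_rpow (abs_nonneg _) (hx a) (by linarith)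
    rw [Real.mul_rpow (by positivity) (norm_nonneg _)] at h4
    refine h4.trans (mul_le_mul_of_nonneg_right ?_ (Real.rpow_nonneg (norm_nonneg _) _))
    have h5 : ((m : ℝ) + 1)⁻¹ ≤ 1 := by
      apply inv_le_one_of_one_le₀
      have : (0 : ℝ) ≤ (m : ℝ) := Nat.cast_nonneg m
      linarith
    calc (((m : ℝ) + 1)⁻¹) ^ p ≤ (((m : ℝ) + 1)⁻¹) ^ (1 : ℝ) :=
          Real.rpow_le_rpow_of_exponent_ge (by positivity) h5 hp
      _ = ((m : ℝ) + 1)⁻¹ := Real.rpow_one _
  refine (Finset.sum_le_sum h3).trans ?_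
  rw [Finset.sum_const, Finset.card_univ, Fintype.card_fin, nsmul_eq_mul, ← mul_assoc]
  have h6 : (m : ℝ) * ((m : ℝ) + 1)⁻¹ ≤ 1 := by
    rw [← div_eq_mul_inv, div_le_one hm0]
    linarith
  have h7 : 0 ≤ ‖W.mulVec x‖ ^ p := Real.rpow_nonneg (norm_nonneg _) _
  nlinarith

theorem ee_le {n m : ℕ} (B : Matrix (Fin m) (Fin n) ℝ) (W : Matrix (Fin n) (Fin m) ℝ)
    (h : B * W = 1) (p : ℝ) (hp : 1 ≤ p) (x : Fin m → ℝ) : ee p W x ≤ ee p (DD B) x := by
  unfold ee
  apply Real.exp_le_exp.mpr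
  have := Ph_DD_le B W h p hp x
  linarith

/-- The kernel of a nonzero matrix is a null set. -/
theorem ker_null {n m : ℕ} (U : Matrix (Fin n) (Fin m) ℝ) (hU : U ≠ 0) :
    ∀ᵐ x : Fin m → ℝ, U.mulVec x ≠ 0 := by
  have h1 : (LinearMap.ker (Matrix.toLin' U)) ≠ ⊤ := by
    intro h
    rw [LinearMap.ker_eq_top] at h
    apply hU
    exact (LinearEquiv.map_eq_zero_iff Matrix.toLin').mp h
  have h2 := Measure.addHaar_submodule (volume : Measure (Fin m → ℝ)) _ h1
  rw [ae_iff]
  refine measure_mono_null ?_ h2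
  intro x hx
  rw [Set.mem_ofPred_eq, not_not] at hx
  rw [SetLike.mem_coe, LinearMap.mem_ker, Matrix.toLin'_apply]
  exact hx

end CO

/-- CO -/
theorem st_CO (hT : ST_CTN) (hI : ST_IN0) : ST_CO := by
  intro n m p V B hp2 hp3 hBV
  have hp1 : 1 ≤ p := by linarith
  have hBW : ∀ w : KB B, B * (V + Matrix.of (w : Fin n → Fin m → ℝ)) = 1 := by
    intro w
    have hw : B * Matrix.of (w : Fin n → Fin m → ℝ) = 0 := w.2
    rw [Matrix.mul_add, hBV, hw, add_zero]
  have hcont : Continuous (GB B V p) := by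
    have h1 := (hT n m p hp2 hp3).2.1
    have h2 : Continuous (fun w : KB B => V + Matrix.of (w : Fin n → Fin m → ℝ)) := by
      apply Continuous.add continuous_const
      refine continuous_matrix ?_
      intro i j
      have h3 : Continuous (fun w : KB B => (w : Fin n → Fin m → ℝ)) := continuous_subtype_val
      exact (continuous_apply j).comp ((continuous_apply i).comp h3)
    exact h1.comp_continuous h2 fun w => CO.inj_of (hBW w)
  have hpos : ∀ w, 0 < GB B V p w := fun w => (hI n m p _ hp1 (CO.inj_of (hBW w))).1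
  refine ⟨hcont, hpos, ?_⟩
  intro c hc
  have hclosed : IsClosed {w | c ≤ GB B V p w} := isClosed_le continuous_const hcont
  have hbdd : Bornology.IsBounded {w | c ≤ GB B V p w} := by
    by_contra hnb
    have hseq : ∀ k : ℕ, ∃ w : KB B, c ≤ GB B V p w ∧ (k : ℝ) + 1 < ‖w‖ := by
      intro k
      by_contra hcon
      apply hnb
      rw [isBounded_iff_forall_norm_le]
      refine ⟨(k : ℝ) + 1, ?_⟩
      intro w hw
      by_contra hlt
      exact hcon ⟨w, hw, lt_of_not_ge hlt⟩
    choose w hwc hwn using hseq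
    -- normalised directions
    let e : ℕ → (Fin n → Fin m → ℝ) := fun k => (w k : Fin n → Fin m → ℝ)
    have hen : ∀ k : ℕ, (k : ℝ) + 1 < ‖e k‖ := fun k => hwn k
    have he0 : ∀ k : ℕ, 0 < ‖e k‖ := fun k => by
      have h1 := hen k
      have h2 : (0 : ℝ) ≤ (k : ℝ) := Nat.cast_nonneg k
      linarith
    have hu : ∀ k, ‖e k‖⁻¹ • e k ∈ Metric.sphere (0 : Fin n → Fin m → ℝ) 1 := by
      intro k
      rw [mem_sphere_zero_iff_norm, norm_smul, norm_inv, norm_norm]
      exact inv_mul_cancel₀ (he0 k).ne'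
    obtain ⟨u, husph, φ, hφ, hlim⟩ := (isCompact_sphere (0 : Fin n → Fin m → ℝ) 1).tendsto_subseq hu
    have hu0 : (Matrix.of u : Matrix (Fin n) (Fin m) ℝ) ≠ 0 := by
      intro h0
      have h1 : u = 0 := h0
      rw [h1, mem_sphere_zero_iff_norm, norm_zero] at husph
      exact zero_ne_one husph
    have hnorm : Tendsto (fun k => ‖e (φ k)‖) atTop atTop := by
      refine tendsto_atTop_mono (f := fun k : ℕ => (k : ℝ)) ?_ tendsto_natCast_atTop_atTop
      intro k
      have h1 := hen (φ k)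
      have h2 : (k : ℝ) ≤ (φ k : ℝ) := by exact_mod_cast hφ.id_le k
      linarith
    let W : ℕ → Matrix (Fin n) (Fin m) ℝ := fun k => V + Matrix.of (e (φ k))
    have hBWk : ∀ k, B * W k = 1 := fun k => hBW (w (φ k))
    have hmain : Tendsto (fun k => ∫ x : Fin m → ℝ, ee p (W k) x) atTop
        (𝓝 (∫ _x : Fin m → ℝ, (0 : ℝ))) := by
      refine tendsto_integral_of_dominated_convergence (fun x => ee p (CO.DD B) x) ?_ ?_ ?_ ?_
      · intro k
        exact (hI n m p (W k) hp1 (CO.inj_of (hBWk k))).2.1.aestronglyMeasurable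
      · have h1 := (hI m m p (CO.DD B) hp1 (CO.DD_inj B)).2.2 (fun _ => (1 : ℝ)) 1 0
          aestronglyMeasurable_const (fun x => by simp)
        refine h1.congr (Filter.Eventually.of_forall fun x => ?_)
        exact one_mul _
      · intro k
        refine Filter.Eventually.of_forall fun x => ?_
        have h1 : 0 ≤ ee p (W k) x := (Real.exp_pos _).le
        rw [Real.norm_eq_abs, abs_of_nonneg h1]
        exact CO.ee_le B (W k) (hBWk k) p hp1 x
      · filter_upwards [CO.ker_null (Matrix.of u) hu0] with x hx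
        obtain ⟨i, hi⟩ : ∃ i, (Matrix.of u).mulVec x i ≠ 0 := by
          by_contra hcon
          apply hx
          funext i
          by_contra h
          exact hcon ⟨i, h⟩
        -- convergence of the i-th coordinate in the direction
        have hci : Tendsto (fun k => (Matrix.of (‖e (φ k)‖⁻¹ • e (φ k)) :
            Matrix (Fin n) (Fin m) ℝ).mulVec x i) atTop (𝓝 ((Matrix.of u).mulVec x i)) := by
          unfold Matrix.mulVec dotProduct
          apply tendsto_finsetSum
          intro j _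
          apply Tendsto.mul_const
          have h1 : Continuous (fun z : Fin n → Fin m → ℝ => z i j) :=
            (continuous_apply j).comp (continuous_apply i)
          exact (h1.tendsto u).comp hlim
        have habs : Tendsto (fun k => |(Matrix.of (‖e (φ k)‖⁻¹ • e (φ k)) :
            Matrix (Fin n) (Fin m) ℝ).mulVec x i|) atTop (𝓝 |(Matrix.of u).mulVec x i|) :=
          hci.abs
        have hbig : Tendsto (fun k => ‖e (φ k)‖ * |(Matrix.of (‖e (φ k)‖⁻¹ • e (φ k)) :
            Matrix (Fin n) (Fin m) ℝ).mulVec x i| - |V.mulVec x i|) atTop atTop := by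
          apply tendsto_atTop_add_const_right
          exact hnorm.atTop_mul_pos (abs_pos.mpr hi) habs
        have hWi : ∀ k, ‖e (φ k)‖ * |(Matrix.of (‖e (φ k)‖⁻¹ • e (φ k)) :
            Matrix (Fin n) (Fin m) ℝ).mulVec x i| - |V.mulVec x i| ≤ |(W k).mulVec x i| := by
          intro k
          have h1 : (W k).mulVec x i = V.mulVec x i + ‖e (φ k)‖ *
              (Matrix.of (‖e (φ k)‖⁻¹ • e (φ k)) : Matrix (Fin n) (Fin m) ℝ).mulVec x i := by
            have h2 : (Matrix.of (‖e (φ k)‖⁻¹ • e (φ k)) : Matrix (Fin n) (Fin m) ℝ).mulVec x i =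
                ‖e (φ k)‖⁻¹ * (Matrix.of (e (φ k))).mulVec x i := by
              unfold Matrix.mulVec dotProduct
              rw [Finset.mul_sum]
              apply Finset.sum_congr rfl
              intro j _
              simp only [Matrix.of_apply, Pi.smul_apply, smul_eq_mul]
              ring
            rw [h2, ← mul_assoc, mul_inv_cancel₀ (he0 (φ k)).ne', one_mul]
            have h3 : (W k).mulVec x = V.mulVec x + (Matrix.of (e (φ k))).mulVec x :=
              Matrix.add_mulVec _ _ _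
            rw [h3, Pi.add_apply]
          rw [h1]
          have h4 : ‖e (φ k)‖ * |(Matrix.of (‖e (φ k)‖⁻¹ • e (φ k)) :
              Matrix (Fin n) (Fin m) ℝ).mulVec x i| = |‖e (φ k)‖ *
              (Matrix.of (‖e (φ k)‖⁻¹ • e (φ k)) : Matrix (Fin n) (Fin m) ℝ).mulVec x i| := by
            rw [abs_mul, abs_of_pos (he0 (φ k))]
          rw [h4]
          have h5 := abs_sub_abs_le_abs_sub (‖e (φ k)‖ *
              (Matrix.of (‖e (φ k)‖⁻¹ • e (φ k)) : Matrix (Fin n) (Fin m) ℝ).mulVec x i)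
              (-(V.mulVec x i))
          rw [abs_neg, sub_neg_eq_add] at h5
          rw [add_comm (V.mulVec x i)]
          exact h5
        have hWt : Tendsto (fun k => |(W k).mulVec x i|) atTop atTop :=
          tendsto_atTop_mono hWi hbig
        have hPh : Tendsto (fun k => Ph p (W k) x) atTop atTop := by
          have h1 : Tendsto (fun k => |(W k).mulVec x i| ^ p) atTop atTop :=
            (tendsto_rpow_atTop (by linarith : 0 < p)).comp hWt
          refine tendsto_atTop_mono ?_ h1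
          intro k
          unfold Ph
          exact Finset.single_le_sum (f := fun i => |(W k).mulVec x i| ^ p)
            (fun i _ => Real.rpow_nonneg (abs_nonneg _) _) (Finset.mem_univ i)
        unfold ee
        exact Real.tendsto_exp_neg_atTop_nhds_zero.comp hPh
    rw [integral_zero] at hmain
    have hge : ∀ k, c ≤ ∫ x : Fin m → ℝ, ee p (W k) x := fun k => hwc (φ k)
    have := ge_of_tendsto' hmain hge
    linarith
  exact Metric.isCompact_of_isClosed_isBounded hclosed hbdd

end Pool.Agent.Helper44.GJ
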